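import Pool.Agent.H100Z.AD

set_option autoImplicit false

open Pool.Agent.H100Z.Defs

/-- A set of c.e. degree is attractive if and only if it is almost everywhere dominating. -/
theorem Pool.Agent.Results.MP_9fb7a1_lc.AAIff.result :
    ∀ A : ℕ → Bool, CEDegree A → (Attractive A ↔ AEDominating A) := by
  rintro A ⟨C, hC, h⟩
  exact ⟨Pool.Agent.H100Z.HB.aed_of_attr hC h, Pool.Agent.H100Z.AT.attr_of_aed⟩
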